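import Mathlib

/-!
# Deterministic machines with random access to the bits of the input
-/

namespace Pool.Agent.APH

/-- A nonuniform deterministic machine with random access to the input bits `I` and the set `V` of
states (of the memory): the time and the state determine the bit that is read; the time, the state
and the value of this bit determine the next state. -/
structure Mach (I V : Type) where
  start : V
  bit : ℕ → V → I
  next : ℕ → V → Bool → V
  acc : V → Prop

/-- The state after `t` steps on the input `x`. -/
def Mach.state {I V : Type} (M : Mach I V) (x : I → Bool) : ℕ → V
  | 0 => M.start
  | t + 1 => M.next t (M.state x t) (x (M.bit t (M.state x t)))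

/-- The machine computes `f` in `T` steps. -/
def Mach.Decides {I V : Type} (M : Mach I V) (T : ℕ) (f : (I → Bool) → Bool) : Prop :=
  ∀ x, M.acc (M.state x T) ↔ f x = true

end Pool.Agent.APH
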