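import Pool.Agent.APH.Defs
import Pool.Agent.Lib_helper20.LG.Model

/-!
A deterministic machine is a nondeterministic branching program with one access pattern.
-/

set_option autoImplicit false

namespace Pool.Agent.APH

open Pool.Agent.Lib_helper20.SRO

variable {I V : Type}

/-- The branching program of a machine. -/
def toNBP (M : Mach I V) (T : ℕ) : NBP I (Option (Fin (T + 1) × V)) where
  source := some (0, M.start)
  sink := none
  edge u v o := (∃ (t t' : Fin (T + 1)) (s : V) (e : Bool), t'.val = t.val + 1 ∧ u = some (t, s) ∧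
      v = some (t', M.next t s e) ∧ o = some (M.bit t s, e)) ∨
    (∃ s, M.acc s ∧ u = some (Fin.last T, s) ∧ v = none ∧ o = none)

/-- The tests of `j` steps. -/
def steps (M : Mach I V) (x : I → Bool) : ℕ → V → ℕ → List (I × Bool)
  | _, _, 0 => []
  | t, s, j + 1 => (M.bit t s, x (M.bit t s)) :: steps M x (t + 1) (M.next t s (x (M.bit t s))) j

/-- The state after `j` steps. -/
def fin (M : Mach I V) (x : I → Bool) : ℕ → V → ℕ → V
  | _, s, 0 => s
  | t, s, j + 1 => fin M x (t + 1) (M.next t s (x (M.bit t s))) j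

lemma fin_state (M : Mach I V) (x : I → Bool) (j t : ℕ) :
    fin M x t (M.state x t) j = M.state x (t + j) := by
  induction j generalizing t with
  | zero => rfl
  | succ j ih =>
    rw [fin]
    have h := ih (t + 1)
    rw [show t + 1 + j = t + (j + 1) by ring] at h
    exact h

lemma walk_det {M : Mach I V} {T : ℕ} {x : I → Bool} {u v : Option (Fin (T + 1) × V)}
    {l : List (I × Bool)} (h : Walk (toNBP M T) u v l) : Agrees x l →
    (u = none → v = none ∧ l = []) ∧
    (∀ (t : Fin (T + 1)) (s : V), u = some (t, s) → l = steps M x t s l.length ∧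
      (∀ (t' : Fin (T + 1)) (s' : V), v = some (t', s') → t'.val = t.val + l.length) ∧
      (v = none → t.val + l.length = T ∧ M.acc (fin M x t s l.length))) := by
  induction h with
  | nil u =>
    intro _
    refine ⟨fun h => ⟨h, rfl⟩, fun t s hu => ⟨rfl, fun t' s' h' => ?_, fun h' => ?_⟩⟩
    · rw [hu] at h'
      have h2 := Option.some.inj h'
      rw [Prod.mk.injEq] at h2
      rw [← h2.1]
      rfl
    · rw [hu] at h'
      exact absurd h' (by simp)
  | @free u v w l he hw ih =>
    intro hl
    rcases he with ⟨t, t', s, e, -, -, -, h4⟩ | ⟨s, hs, h1, h2, -⟩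
    · exact absurd h4 (by simp)
    · obtain ⟨hw1, hl1⟩ := (ih hl).1 h2
      refine ⟨fun h => absurd (h1.symm.trans h) (by simp), fun t s' hu => ?_⟩
      rw [h1] at hu
      have h3 := Option.some.inj hu
      rw [Prod.mk.injEq] at h3
      subst hl1
      refine ⟨rfl, fun t' s'' h' => absurd (hw1.symm.trans h') (by simp), fun _ => ?_⟩
      rw [← h3.1, ← h3.2]
      exact ⟨rfl, hs⟩
  | @test u v w l y c he hw ih =>
    intro hl
    have hl' : Agrees x l := fun p hp => hl p (List.mem_cons_of_mem _ hp)
    have hc : x y = c := hl (y, c) List.mem_cons_self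
    rcases he with ⟨t, t', s, e, h0, h1, h2, h3⟩ | ⟨s, -, -, -, h4⟩
    · have h5 := Option.some.inj h3
      rw [Prod.mk.injEq] at h5
      obtain ⟨h5, h6⟩ := h5
      refine ⟨fun h => absurd (h1.symm.trans h) (by simp), fun t1 s1 hu => ?_⟩
      rw [h1] at hu
      have h7 := Option.some.inj hu
      rw [Prod.mk.injEq] at h7
      obtain ⟨h7, h8⟩ := h7
      subst h7 h8
      have he : e = x (M.bit t s) := by rw [← h6, ← hc, h5]
      subst he
      obtain ⟨ih1, ih2, ih3⟩ := (ih hl').2 t' _ h2
      rw [h0] at ih1 ih2 ih3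
      refine ⟨?_, fun t'' s'' h' => ?_, fun h' => ?_⟩
      · rw [List.length_cons, steps, ← ih1, h5, h6]
      · rw [ih2 t'' s'' h', List.length_cons]
        ring
      · obtain ⟨h9, h10⟩ := ih3 h'
        refine ⟨?_, ?_⟩
        · rw [List.length_cons]
          omega
        · rw [List.length_cons, fin]
          exact h10
    · exact absurd h4 (by simp)

/-- Two walks between the same nodes which agree with an input have the same tests. -/
lemma walk_unique {M : Mach I V} {T : ℕ} {x : I → Bool} {u v : Option (Fin (T + 1) × V)}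
    {l l' : List (I × Bool)} (h : Walk (toNBP M T) u v l) (hl : Agrees x l)
    (h' : Walk (toNBP M T) u v l') (hl' : Agrees x l') : l = l' := by
  obtain ⟨h1, h2⟩ := walk_det h hl
  obtain ⟨h1', h2'⟩ := walk_det h' hl'
  rcases hu : u with _ | ⟨t, s⟩
  · rw [(h1 hu).2, (h1' hu).2]
  · obtain ⟨a1, a2, a3⟩ := h2 t s hu
    obtain ⟨b1, b2, b3⟩ := h2' t s hu
    have hlen : l.length = l'.length := by
      rcases hv : v with _ | ⟨t', s'⟩
      · have := (a3 hv).1
        have := (b3 hv).1
        omega
      · have := a2 t' s' hv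
        have := b2 t' s' hv
        omega
    rw [a1, b1, hlen]

theorem toNBP_computes (M : Mach I V) (T : ℕ) (x : I → Bool) :
    (toNBP M T).Accepts x ↔ M.acc (M.state x T) := by
  constructor
  · rintro ⟨l, hw, hl⟩
    obtain ⟨h1, h2⟩ := (walk_det hw hl).2 0 M.start rfl
    obtain ⟨h3, h4⟩ := h2.2 rfl
    have h5 : l.length = T := by simpa using h3
    have h6 := fin_state M x l.length 0
    rw [zero_add] at h6
    rw [← h5, ← h6]
    exact h4
  · intro hacc
    have key : ∀ j (t : Fin (T + 1)), t.val + j = T →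
        ∃ l, Walk (toNBP M T) (some (t, M.state x t)) none l ∧ Agrees x l := by
      intro j
      induction j with
      | zero =>
        intro t ht
        have ht' : t = Fin.last T := Fin.ext (by simpa using ht)
        refine ⟨[], Walk.free (v := none) (Or.inr ⟨M.state x t, ?_, ?_, rfl, rfl⟩) (Walk.nil _),
          fun p hp => absurd hp (by simp)⟩
        · rw [ht']
          exact hacc
        · rw [ht']
      | succ j ih =>
        intro t ht
        have ht' : t.val + 1 < T + 1 := by omega
        obtain ⟨l, hw, hl⟩ := ih ⟨t.val + 1, ht'⟩ (by simp only; omega)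
        refine ⟨(M.bit t (M.state x t), x (M.bit t (M.state x t))) :: l,
          Walk.test _ _ (Or.inl ⟨t, ⟨t.val + 1, ht'⟩, M.state x t, x (M.bit t (M.state x t)), rfl,
            rfl, rfl, rfl⟩) hw, ?_⟩
        intro p hp
        rcases List.mem_cons.1 hp with rfl | hp
        · rfl
        · exact hl p hp
    obtain ⟨l, hw, hl⟩ := key T 0 (by simp)
    exact ⟨l, hw, hl⟩

variable {W X : Type}

theorem toNBP_access (M : Mach (W ⊕ X) V) (T : ℕ) : (toNBP M T).AccessPatterns 1 := by
  intro b u v
  rw [Nat.cast_one, Set.encard_le_one_iff]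
  rintro S S' ⟨l, h1, h2, h3⟩ ⟨l', h1', h2', h3'⟩
  rw [h3, h3', walk_unique h1 h2 h1' h2']

theorem toNBP_few (M : Mach (W ⊕ X) V) (T : ℕ) : (toNBP M T).FewTests T := by
  rintro b ⟨l, hw, hl⟩
  refine ⟨l, hw, hl, ?_⟩
  obtain ⟨h1, h2⟩ := (walk_det hw hl).2 0 M.start rfl
  have h3 := (h2.2 rfl).1
  have h4 : l.countP (fun p => p.1.isRight) ≤ l.length := List.countP_le_length
  have h5 : l.length = T := by simpa using h3
  omega

theorem card_toNBP [Fintype V] (M : Mach I V) (T : ℕ) :
    Fintype.card (Option (Fin (T + 1) × V)) ≤ 2 * ((T + 1) * Fintype.card V) := by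
  have h1 : 0 < Fintype.card V := Fintype.card_pos_iff.2 ⟨M.start⟩
  have h2 : 0 < (T + 1) * Fintype.card V := Nat.mul_pos (Nat.succ_pos T) h1
  rw [Fintype.card_option, Fintype.card_prod, Fintype.card_fin]
  omega

end Pool.Agent.APH
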