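import Mathlib

/-!
The numerical estimates: the trade-off with parameters implies the one without.
-/

set_option autoImplicit false

namespace Pool.Agent.APH

open Real Filter

/-- The number of tests: a constant times `N log N / log log N`. -/
noncomputable def lenB (N : ℕ) : ℝ := 1 / 100000 * N * log N / log (log N)

lemma ev1 : ∀ᶠ n : ℕ in atTop, 260 * log (5 * log n) ≤ 7 / 100 * log n := by
  have h1 : Tendsto (fun n : ℕ => log (n : ℝ)) atTop atTop :=
    tendsto_log_atTop.comp tendsto_natCast_atTop_atTop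
  have h2 : Tendsto (fun n : ℕ => 5 * log (n : ℝ)) atTop atTop := h1.const_mul_atTop (by norm_num)
  have h3 := (isLittleO_log_id_atTop.comp_tendsto h2).bound
    (show (0 : ℝ) < 7 / 100 / 1300 by norm_num)
  filter_upwards [h3, h2.eventually_ge_atTop 1] with n hn h5
  simp only [Function.comp_apply, id_eq, norm_eq_abs] at hn
  have h6 : 0 ≤ log (5 * log (n : ℝ)) := log_nonneg h5
  rw [abs_of_nonneg h6, abs_of_nonneg (by linarith)] at hn
  linarith

lemma ev2 : ∀ᶠ n : ℕ in atTop, 4 * (log (10 * (n : ℝ) ^ 4) / log 2) + 4 * (n : ℝ) ^ (4 / 5 : ℝ) ≤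
    (n : ℝ) ^ (9 / 10 : ℝ) := by
  have h1 : Tendsto (fun n : ℕ => (n : ℝ)) atTop atTop := tendsto_natCast_atTop_atTop
  have h2 := ((tendsto_rpow_atTop (show (0 : ℝ) < 1 / 10 by norm_num)).comp
    h1).eventually_ge_atTop 8
  have h3 := ((isLittleO_log_rpow_atTop (show (0 : ℝ) < 9 / 10 by norm_num)).comp_tendsto h1).bound
    (show (0 : ℝ) < 1 / 100 by norm_num)
  have hl2 := log_two_gt_d9
  filter_upwards [h2, h3, h1.eventually_ge_atTop 10] with n hn hn3 h10
  simp only [Function.comp_apply, norm_eq_abs] at hn hn3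
  have hp1 : 0 ≤ (n : ℝ) ^ (4 / 5 : ℝ) := by positivity
  have hp2 : 0 ≤ (n : ℝ) ^ (9 / 10 : ℝ) := by positivity
  have hn' : 8 * (n : ℝ) ^ (4 / 5 : ℝ) ≤ (n : ℝ) ^ (9 / 10 : ℝ) := by
    have e : (n : ℝ) ^ (9 / 10 : ℝ) = (n : ℝ) ^ (1 / 10 : ℝ) * (n : ℝ) ^ (4 / 5 : ℝ) := by
      rw [← rpow_add (by linarith)]
      norm_num
    rw [e]
    exact mul_le_mul_of_nonneg_right hn hp1
  have hlog : 0 ≤ log (n : ℝ) := log_nonneg (by linarith)
  rw [abs_of_nonneg hlog, abs_of_nonneg hp2] at hn3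
  have h4 : log (10 * (n : ℝ) ^ 4) ≤ 5 * log n := by
    rw [log_mul (by norm_num) (by positivity), log_pow]
    have : log 10 ≤ log (n : ℝ) := log_le_log (by norm_num) h10
    push_cast
    linarith
  have h5 : log (10 * (n : ℝ) ^ 4) / log 2 ≤ 10 * log n := by
    rw [div_le_iff₀ (by linarith)]
    nlinarith
  linarith

/-- The numerical statement. -/
theorem num : ∃ n₀ : ℕ, 16 ≤ n₀ ∧ ∀ n ≥ n₀, ∀ L N : ℕ, n * L ≤ N → N ≤ 2 * (n * L) →
    n ^ 4 ≤ N → N ≤ 10 * n ^ 4 →
    ∃ k : ℕ, 1 ≤ k ∧ (k + 1) ^ (260 * k) ≤ n ∧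
      (∀ T : ℕ, (T : ℝ) ≤ lenB N → T ≤ k * (n * L) ∧ T + 1 ≤ N ^ 2) ∧
      (N : ℝ) ^ 4 * (2 : ℝ) ^ ((N : ℝ) ^ (1 / 5 : ℝ)) * (2 : ℝ) ^ ((N : ℝ) ^ (1 / 5 : ℝ)) ≤
        (2 : ℝ) ^ ((n : ℝ) / (k + 1) ^ (260 * k)) := by
  obtain ⟨n₁, hn₁⟩ := eventually_atTop.1 (ev1.and (ev2.and
    ((tendsto_log_atTop.comp tendsto_natCast_atTop_atTop).eventually_ge_atTop (100 : ℝ))))
  refine ⟨max 16 n₁, le_max_left _ _, ?_⟩
  intro n hn L N hL1 hL2 hN1 hN2
  have hn16 : 16 ≤ n := le_trans (le_max_left _ _) hn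
  obtain ⟨e1, e2, e3⟩ := hn₁ n (le_trans (le_max_right _ _) hn)
  simp only [Function.comp_apply] at e3
  set x : ℝ := log (n : ℝ) with hx
  have hn0 : (0 : ℝ) < n := by
    have : 0 < n := by omega
    exact_mod_cast this
  have hNr1 : (n : ℝ) ^ 4 ≤ N := by exact_mod_cast hN1
  have hNr2 : (N : ℝ) ≤ 10 * (n : ℝ) ^ 4 := by exact_mod_cast hN2
  have hN0 : (0 : ℝ) < N := lt_of_lt_of_le (by positivity) hNr1
  set y : ℝ := log (N : ℝ) with hy
  have hy1 : 4 * x ≤ y := by
    have h1 : log ((n : ℝ) ^ 4) ≤ log (N : ℝ) := log_le_log (by positivity) hNr1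
    rw [log_pow] at h1
    push_cast at h1
    exact h1
  have hlog10 : log 10 ≤ 3 := by
    have h1 : log 10 ≤ log 16 := log_le_log (by norm_num) (by norm_num)
    have h2 : log 16 = 4 * log 2 := by
      rw [show (16 : ℝ) = 2 ^ 4 by norm_num, log_pow]
      norm_num
    have := log_two_lt_d9
    linarith
  have hy2 : y ≤ 5 * x := by
    have h1 : log (N : ℝ) ≤ log (10 * (n : ℝ) ^ 4) := log_le_log hN0 hNr2
    rw [log_mul (by norm_num) (by positivity), log_pow] at h1
    push_cast at h1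
    linarith
  have hy400 : 400 ≤ y := by linarith
  set z : ℝ := log y with hz
  have hz1 : 1 ≤ z := by
    have h1 : log (Real.exp 1) ≤ log y := by
      apply log_le_log (Real.exp_pos 1)
      have := Real.exp_one_lt_d9
      linarith
    rwa [log_exp] at h1
  have hz2 : 260 * z ≤ 7 / 100 * x := by
    refine le_trans ?_ e1
    have : z ≤ log (5 * x) := log_le_log (by linarith) hy2
    linarith
  have hzx : z ≤ y := by linarith
  -- the number k
  set w : ℝ := 2 / 100000 * y / z with hw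
  have hw0 : 0 < w := by
    rw [hw]
    positivity
  set k : ℕ := ⌈w⌉₊ with hk
  have hk1 : 1 ≤ k := Nat.one_le_ceil_iff.2 hw0
  have hkw : w ≤ k := Nat.le_ceil w
  have hkw' : (k : ℝ) < w + 1 := Nat.ceil_lt_add_one hw0.le
  have hwz : w * z = 2 / 100000 * y := by
    rw [hw]
    field_simp
  have hwy : w ≤ 2 / 100000 * y := by
    rw [hw]
    exact div_le_self (by positivity) hz1
  have hk2 : ((k : ℝ) + 1) ≤ y := by linarith
  have hlogk : log ((k : ℝ) + 1) ≤ z := log_le_log (by positivity) hk2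
  have hlogk0 : 0 ≤ log ((k : ℝ) + 1) := log_nonneg (by linarith [show (1 : ℝ) ≤ k by exact_mod_cast hk1])
  have hpow : log (((k : ℝ) + 1) ^ (260 * k)) ≤ 1 / 10 * x := by
    rw [log_pow]
    push_cast
    have h1 : (260 * (k : ℝ)) * log ((k : ℝ) + 1) ≤ (260 * (w + 1)) * z := by
      apply mul_le_mul _ hlogk hlogk0 (by positivity)
      linarith
    have h2 : (260 * (w + 1)) * z = 260 * (w * z) + 260 * z := by ring
    rw [h2, hwz] at h1
    linarith
  have hpow2 : ((k : ℝ) + 1) ^ (260 * k) ≤ (n : ℝ) ^ (1 / 10 : ℝ) := by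
    rw [← log_le_log_iff (by positivity) (by positivity), log_rpow hn0]
    exact hpow
  have hB0 : (0 : ℝ) < ((k : ℝ) + 1) ^ (260 * k) := by positivity
  refine ⟨k, hk1, ?_, ?_, ?_⟩
  · have h1 : ((k : ℝ) + 1) ^ (260 * k) ≤ (n : ℝ) := by
      refine hpow2.trans ?_
      calc (n : ℝ) ^ (1 / 10 : ℝ) ≤ (n : ℝ) ^ (1 : ℝ) :=
            rpow_le_rpow_of_exponent_le (by exact_mod_cast (by omega : 1 ≤ n)) (by norm_num)
        _ = n := rpow_one _
    exact_mod_cast h1
  · intro T hT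
    have hT1 : (T : ℝ) ≤ w / 2 * N := by
      refine hT.trans (le_of_eq ?_)
      rw [lenB, hw]
      ring
    constructor
    · have h1 : (T : ℝ) ≤ (k * (n * L) : ℕ) := by
        refine hT1.trans ?_
        have h2 : (N : ℝ) ≤ 2 * (n * L : ℕ) := by exact_mod_cast hL2
        have h3 : w / 2 * N ≤ w / 2 * (2 * (n * L : ℕ)) :=
          mul_le_mul_of_nonneg_left h2 (by positivity)
        have h4 : w / 2 * (2 * (n * L : ℕ)) = w * ((n * L : ℕ) : ℝ) := by ring
        have h5 : w * ((n * L : ℕ) : ℝ) ≤ k * ((n * L : ℕ) : ℝ) :=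
          mul_le_mul_of_nonneg_right hkw (Nat.cast_nonneg _)
        have h6 : ((k * (n * L) : ℕ) : ℝ) = k * ((n * L : ℕ) : ℝ) := by
          push_cast
          ring
        rw [h6]
        linarith
      exact_mod_cast h1
    · have hyN : y ≤ N := by
        have := log_le_sub_one_of_pos hN0
        linarith
      have hN400 : (400 : ℝ) ≤ N := by linarith
      have h1 : (T : ℝ) + 1 ≤ (N ^ 2 : ℕ) := by
        have h2 : w / 2 * N ≤ 1 / 100000 * N * N := by
          have : w / 2 ≤ 1 / 100000 * N := by linarith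
          exact mul_le_mul_of_nonneg_right this hN0.le
        push_cast
        nlinarith
      exact_mod_cast h1
  · have h1 : (n : ℝ) ^ (9 / 10 : ℝ) ≤ (n : ℝ) / ((k : ℝ) + 1) ^ (260 * k) := by
      rw [le_div_iff₀ hB0]
      calc (n : ℝ) ^ (9 / 10 : ℝ) * ((k : ℝ) + 1) ^ (260 * k)
          ≤ (n : ℝ) ^ (9 / 10 : ℝ) * (n : ℝ) ^ (1 / 10 : ℝ) :=
            mul_le_mul_of_nonneg_left hpow2 (by positivity)
        _ = n := by
            rw [← rpow_add hn0]
            norm_num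
    have h2 : (N : ℝ) ^ (1 / 5 : ℝ) ≤ 2 * (n : ℝ) ^ (4 / 5 : ℝ) := by
      calc (N : ℝ) ^ (1 / 5 : ℝ) ≤ (10 * (n : ℝ) ^ 4) ^ (1 / 5 : ℝ) :=
            rpow_le_rpow hN0.le hNr2 (by norm_num)
        _ ≤ (32 * (n : ℝ) ^ 4) ^ (1 / 5 : ℝ) :=
            rpow_le_rpow (by positivity) (by nlinarith [show (0 : ℝ) ≤ (n : ℝ) ^ 4 by positivity])
              (by norm_num)
        _ = 2 * (n : ℝ) ^ (4 / 5 : ℝ) := by
            rw [mul_rpow (by norm_num) (by positivity), show (32 : ℝ) = 2 ^ (5 : ℝ) by norm_num,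
              ← rpow_mul (by norm_num), ← rpow_natCast, ← rpow_mul hn0.le]
            norm_num
    have h3 : (N : ℝ) ^ 4 = (2 : ℝ) ^ (4 * (y / log 2)) := by
      rw [rpow_def_of_pos (by norm_num), show log 2 * (4 * (y / log 2)) = 4 * y by
        have := log_two_gt_d9
        field_simp]
      rw [show (4 : ℝ) * y = ((4 : ℕ) : ℝ) * y by norm_num, ← log_pow, exp_log (by positivity)]
    rw [h3, ← rpow_add (by norm_num), ← rpow_add (by norm_num)]
    apply rpow_le_rpow_of_exponent_le one_le_two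
    refine le_trans ?_ h1
    refine le_trans ?_ e2
    have h4 : y / log 2 ≤ log (10 * (n : ℝ) ^ 4) / log 2 := by
      apply div_le_div_of_nonneg_right _ (log_nonneg one_le_two)
      exact log_le_log hN0 hNr2
    linarith

end Pool.Agent.APH
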