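import Pool.Agent.Lib_helper26.AC.LowerT
import Pool.Agent.Lib_helper26.AC.Compl
import Pool.Agent.APH.Det
import Pool.Agent.APH.Num

/-!
From the trade-off with parameters to the statement without parameters.
-/

set_option autoImplicit false

namespace Pool.Agent.APH

open Pool.Agent.Lib_helper20.SRO Pool.Agent.Lib_helper26.AC

lemma nums {N L : ℕ} {A E a q : ℝ} (hN : 1 ≤ N) (hL : L ≤ N) (hA : 0 < A) (hq : 0 ≤ q)
    (h1 : (N : ℝ) ^ 4 * A * A ≤ E) (h2 : E ≤ L * a * q) (h3 : a ≤ A) : (N : ℝ) ^ 3 * A ≤ q := by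
  have hN' : (1 : ℝ) ≤ N := by exact_mod_cast hN
  have hL' : (L : ℝ) ≤ N := by exact_mod_cast hL
  have h4 : (L : ℝ) * a * q ≤ N * A * q := by
    apply mul_le_mul_of_nonneg_right _ hq
    calc (L : ℝ) * a ≤ L * A := mul_le_mul_of_nonneg_left h3 (Nat.cast_nonneg _)
      _ ≤ N * A := mul_le_mul_of_nonneg_right hL' hA.le
  have h5 : (N * A) * ((N : ℝ) ^ 3 * A) ≤ (N * A) * q := by
    calc (N * A) * ((N : ℝ) ^ 3 * A) = (N : ℝ) ^ 4 * A * A := by ring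
      _ ≤ L * a * q := h1.trans h2
      _ ≤ _ := h4
  exact le_of_mul_le_mul_left h5 (by positivity)

/-- The statements without parameters, for an abstract property of functions. -/
theorem headline {W : Type} {n L N k : ℕ} (hN : 400 ≤ N) (hL : L ≤ N)
    (hlen : ∀ T : ℕ, (T : ℝ) ≤ lenB N → T ≤ k * (n * L) ∧ T + 1 ≤ N ^ 2)
    (hexp : (N : ℝ) ^ 4 * (2 : ℝ) ^ ((N : ℝ) ^ (1 / 5 : ℝ)) * (2 : ℝ) ^ ((N : ℝ) ^ (1 / 5 : ℝ)) ≤
        (2 : ℝ) ^ ((n : ℝ) / (k + 1) ^ (260 * k)))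
    (f : (W ⊕ (Fin L × Fin n) → Bool) → Bool)
    (hlow : ∀ (Q : Type) [Fintype Q] (G : NBP (W ⊕ (Fin L × Fin n)) Q) (a : ℕ),
        G.AccessPatterns a → G.FewTests (k * (n * L)) → G.Computes f →
        (2 : ℝ) ^ ((n : ℝ) / (k + 1) ^ (260 * k)) ≤ L * a * Fintype.card Q) :
    (∀ (Q : Type) [Fintype Q] (G : NBP (W ⊕ (Fin L × Fin n)) Q) (a m : ℕ),
        (a : ℝ) ≤ 2 ^ ((N : ℝ) ^ (1 / 5 : ℝ)) → (m : ℝ) ≤ lenB N →
        G.AccessPatterns a → G.FewTests m → G.Computes f →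
        (2 : ℝ) ^ ((N : ℝ) ^ (1 / 5 : ℝ)) ≤ Fintype.card Q) ∧
    (∀ (V : Type) [Fintype V] (M : Mach (W ⊕ (Fin L × Fin n)) V) (T : ℕ), (T : ℝ) ≤ lenB N →
        M.Decides T f → (2 : ℝ) ^ ((N : ℝ) ^ (1 / 5 : ℝ)) ≤ Fintype.card V) := by
  have hNr : (400 : ℝ) ≤ N := by exact_mod_cast hN
  have hA1 : (1 : ℝ) ≤ (2 : ℝ) ^ ((N : ℝ) ^ (1 / 5 : ℝ)) :=
    Real.one_le_rpow one_le_two (by positivity)
  set A : ℝ := (2 : ℝ) ^ ((N : ℝ) ^ (1 / 5 : ℝ)) with hA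
  have few_mono : ∀ (Q : Type) (G : NBP (W ⊕ (Fin L × Fin n)) Q) (m m' : ℕ), m ≤ m' →
      G.FewTests m → G.FewTests m' := by
    intro Q G m m' hm h b hb
    obtain ⟨l, h1, h2, h3⟩ := h b hb
    exact ⟨l, h1, h2, h3.trans hm⟩
  constructor
  · intro Q _ G a m ha hm hacc hfew hcomp
    have h1 := hlow Q G a hacc (few_mono Q G _ _ (hlen m hm).1 hfew) hcomp
    have h2 := nums (by omega) hL (by linarith) (Nat.cast_nonneg (Fintype.card Q)) hexp h1 ha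
    refine le_trans ?_ h2
    exact le_mul_of_one_le_left (by linarith) (one_le_pow₀ (by linarith))
  · intro V _ M T hT hdec
    obtain ⟨hT1, hT2⟩ := hlen T hT
    have hcomp : (toNBP M T).Computes f := fun b => (toNBP_computes M T b).trans (hdec b)
    have h1 := hlow _ (toNBP M T) 1 (toNBP_access M T) (few_mono _ _ _ _ hT1 (toNBP_few M T)) hcomp
    have h2 := nums (by omega) hL (by linarith) (Nat.cast_nonneg _) hexp h1
      (by simpa using hA1)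
    have h3 : (Fintype.card (Option (Fin (T + 1) × V)) : ℝ) ≤
        2 * ((N : ℝ) ^ 2 * Fintype.card V) := by
      have h4 := card_toNBP M T
      have h5 : 2 * ((T + 1) * Fintype.card V) ≤ 2 * (N ^ 2 * Fintype.card V) :=
        Nat.mul_le_mul_left _ (Nat.mul_le_mul_right _ hT2)
      exact_mod_cast h4.trans h5
    have h6 : (N : ℝ) ^ 2 * (N * A) ≤ (N : ℝ) ^ 2 * (2 * Fintype.card V) := by
      calc (N : ℝ) ^ 2 * (N * A) = (N : ℝ) ^ 3 * A := by ring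
        _ ≤ _ := h2
        _ ≤ 2 * ((N : ℝ) ^ 2 * Fintype.card V) := h3
        _ = _ := by ring
    have h7 : (N : ℝ) * A ≤ 2 * Fintype.card V := le_of_mul_le_mul_left h6 (by positivity)
    nlinarith

lemma card_ge (W : Type) [Fintype W] (n L : ℕ) :
    n * L ≤ Fintype.card (W ⊕ (Fin L × Fin n)) := by
  rw [Fintype.card_sum, Fintype.card_prod, Fintype.card_fin, Fintype.card_fin, mul_comm n L]
  exact Nat.le_add_left _ _

end Pool.Agent.APH
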